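import Pool.Agent.L7h76.FV.Open
import Pool.Agent.TH49.FC.Grp

set_option autoImplicit false

/-!
# The exterior of the minimally twisted five-chain link: all cusps capped
-/

universe u

namespace Pool.Agent.L7h76.FV

open Pool.Agent.L7h76.FC
open Pool.Agent.TH49.FC (Sys step1 IsAct Act Le Lt)

section
variable {X : Type u} [CompleteLinearOrder X] {x y c e g : X ≃o X}

theorem toSys (h : Rel5 x y c e g) (hx : PCap x (c * g)) (hc : Dmn c (g * x * g⁻¹ * y))
    (hy : Low y (e⁻¹ * c)) (he : Far e (y⁻¹ * g)) (hg : Far g (x * e)) :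
    Sys x y c e g (g * x * g⁻¹) (c * y * c⁻¹) (y⁻¹ * g) := by
  have hY : c * y * c⁻¹ = e * y * e⁻¹ := by
    have h1 := h.cy
    have h2 : c * y = e * y * e⁻¹ * c := by
      calc c * y = e * (e⁻¹ * c * y) := by group
        _ = e * (y * (e⁻¹ * c)) := by rw [← h1]
        _ = _ := by group
    rw [h2]; group
  have hX : c * (g * x * g⁻¹) * c⁻¹ = x := by
    have h1 := h.cx
    have h2 : c * g * x = x * c * g := by rw [← h1]; group
    calc c * (g * x * g⁻¹) * c⁻¹ = (c * g * x) * g⁻¹ * c⁻¹ := by group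
      _ = x := by rw [h2]; group
  have hh : g * x * g⁻¹ * y = x * (c * y * c⁻¹) := by
    have h1 := h.cc
    calc g * x * g⁻¹ * y = (g * x * g⁻¹ * y * c) * c⁻¹ := by group
      _ = c * (g * x * g⁻¹ * y) * c⁻¹ := by rw [← h1]
      _ = (c * (g * x * g⁻¹) * c⁻¹) * (c * y * c⁻¹) := by group
      _ = x * (c * y * c⁻¹) := by rw [hX]
  constructor
  · intro v
    show g (x (g⁻¹ (g v))) = g (x v)
    rw [iia]
  · intro v
    show c (y (c⁻¹ (c v))) = c (y v)
    rw [iia]
  · intro v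
    rw [hY]
    show e (y (e⁻¹ (e v))) = e (y v)
    rw [iia]
  · intro v
    exact DFunLike.congr_fun hh v
  · intro v
    show y (y⁻¹ (g v)) = g v
    rw [aii]
  · intro v
    exact DFunLike.congr_fun h.ce v
  · intro v
    exact DFunLike.congr_fun h.cg v
  · exact hx.up
  · exact hx.down
  · exact hx.fix
  · intro v hv
    exact ⟨hc.up_iff hv, hc.up v (hc.up_iff hv)⟩
  · intro v hv
    exact ⟨hc.dn_iff hv, hc.dn v (hc.dn_iff hv)⟩
  · intro v hv
    exact hc.fix_iff hv
  · intro v hv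
    have h1 : e⁻¹ (c v) ≤ y v := hy.up v hv
    rwa [← e.le_iff_le, aii] at h1
  · intro v hv
    have h1 : y v ≤ e⁻¹ (c v) := hy.dn v hv
    rwa [← e.le_iff_le, aii] at h1
  · intro v hv
    have h1 : e⁻¹ (c v) = v := hy.fix v hv
    rw [← e.injective.eq_iff, aii] at h1
    exact h1
  · exact he.up
  · exact he.dn
  · exact he.fix
  · exact hg.up
  · exact hg.dn
  · exact hg.fix

/-- The additional conditions on the slopes of the cusps of `x`, `e` and `g`: the slope of `x` is at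
least `a / k`, the slope of `e` is at least `-1 - b / l`, where `a / k = b / l`, or these two
fractions are Farey neighbours and the slope of `g` is at least `1 - 2 (k + l)`. -/
structure Far5 (x c e g y : X ≃o X) (a k b l : ℕ) : Prop where
  hk : 1 ≤ k
  hl : 1 ≤ l
  xu : ∀ v, v < x v → (x ^ a * (c * g) ^ k) v ≤ v
  xd : ∀ v, x v < v → v ≤ (x ^ a * (c * g) ^ k) v
  eu : ∀ v, v < e v → ((y⁻¹ * g) ^ l) v ≤ (e ^ (l + b)) v
  ed : ∀ v, e v < v → (e ^ (l + b)) v ≤ ((y⁻¹ * g) ^ l) v
  alt : b * k = a * l ∨ (b * k = a * l + 1 ∧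
    (∀ v, v < g v → (x * e) v ≤ (g ^ (2 * (k + l) - 1)) v) ∧
    (∀ v, g v < v → (g ^ (2 * (k + l) - 1)) v ≤ (x * e) v))

theorem Far5.dual {a k b l : ℕ} (h : Far5 x c e g y a k b l) :
    Far5 (X := Xᵒᵈ) x.dual c.dual e.dual g.dual y.dual a k b l := by
  have pw : ∀ (f : X ≃o X) (n : ℕ), (f ^ n).dual = (f.dual) ^ n := by
    intro f n
    induction n with
    | zero => rfl
    | succ n ih => rw [pow_succ, pow_succ, ← ih]; rfl
  refine ⟨h.hk, h.hl, ?_, ?_, ?_, ?_, ?_⟩
  · intro v hv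
    rw [← pw, show (c.dual * g.dual : Xᵒᵈ ≃o Xᵒᵈ) = (c * g).dual from rfl, ← pw]
    exact h.xd v hv
  · intro v hv
    rw [← pw, show (c.dual * g.dual : Xᵒᵈ ≃o Xᵒᵈ) = (c * g).dual from rfl, ← pw]
    exact h.xu v hv
  · intro v hv
    rw [← pw, show ((y.dual)⁻¹ * g.dual : Xᵒᵈ ≃o Xᵒᵈ) = (y⁻¹ * g).dual from rfl, ← pw]
    exact h.ed v hv
  · intro v hv
    rw [← pw, show ((y.dual)⁻¹ * g.dual : Xᵒᵈ ≃o Xᵒᵈ) = (y⁻¹ * g).dual from rfl, ← pw]
    exact h.eu v hv
  · rcases h.alt with h1 | ⟨h1, h2, h3⟩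
    · exact Or.inl h1
    · refine Or.inr ⟨h1, ?_, ?_⟩
      · intro v hv
        rw [← pw]
        exact h3 v hv
      · intro v hv
        rw [← pw]
        exact h2 v hv

/-- `g` moves no point up. -/
theorem not_up5 (h : Rel5 x y c e g) (hx : PCap x (c * g)) (hc : Dmn c (g * x * g⁻¹ * y))
    (hy : Low y (e⁻¹ * c)) (he : Far e (y⁻¹ * g)) (hg : Far g (x * e)) {a k b l : ℕ}
    (hf : Far5 x c e g y a k b l) {s : X} : ¬ s < g s := by
  intro hs
  obtain ⟨J, sJ, hJ, xup, eup, hd, hX⟩ := step1 (toSys h hx hc hy he hg) hs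
  have gup := hJ.up
  -- the stabiliser of `J`
  let K : Subgroup (X ≃o X) :=
    { carrier := {a | ∀ v, a v ∈ J ↔ v ∈ J}
      mul_mem' := by
        intro a b ha hb v
        show a (b v) ∈ J ↔ v ∈ J
        rw [ha, hb]
      one_mem' := by
        intro v
        rfl
      inv_mem' := by
        intro a ha v
        have := ha (a⁻¹ v)
        rw [aii] at this
        exact this.symm }
  let xK : K := ⟨x, hJ.mx⟩
  let yK : K := ⟨y, hJ.my⟩
  let cK : K := ⟨c, hJ.mc⟩
  let eK : K := ⟨e, hJ.me⟩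
  let gK : K := ⟨g, hJ.mg⟩
  let ρK : K → J → J := fun a v => ⟨a.1 v.1, (a.2 v.1).mpr v.2⟩
  have AK : Act ρK := by
    refine ⟨?_, ?_, ?_⟩
    · intro a b t; rfl
    · intro t; rfl
    · intro a u v huv
      exact a.1.lt_iff_lt.mpr huv
  have : Nonempty J := ⟨⟨s, sJ⟩⟩
  have ltK : ∀ a b : K, (∀ v ∈ J, a.1 v < b.1 v) → Lt ρK a b := fun a b hab t => hab t.1 t.2
  have leK : ∀ a b : K, (∀ v ∈ J, a.1 v ≤ b.1 v) → Le ρK a b := fun a b hab t => hab t.1 t.2
  set B : K := gK * xK * gK⁻¹ with hBdef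
  set χ : K := (gK * cK)⁻¹ with hχ
  set m : K := yK⁻¹ * gK with hm
  set ε : K := eK⁻¹ * m with hε
  have gup' : Lt ρK 1 gK := ltK _ _ (fun v hv => gup v hv)
  have eup' : Lt ρK 1 eK := ltK _ _ (fun v hv => eup v hv)
  have xup' : Lt ρK 1 xK := ltK _ _ (fun v hv => xup v hv)
  have eB : Le ρK eK B := leK _ _ (fun v hv => hX v hv)
  have cx : xK * (cK * gK) = cK * gK * xK := Subtype.ext h.cx
  have ce : eK * m = m * eK := Subtype.ext h.ce
  have cg : gK * (xK * eK) = xK * eK * gK := Subtype.ext h.cg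
  have cε : Commute eK ε := (Commute.refl eK).inv_right.mul_right ce
  have cχ : Commute B χ := by
    have h1 : Commute xK (cK * gK)⁻¹ := (show Commute xK (cK * gK) from cx).inv_right
    have h2 : χ = gK * (cK * gK)⁻¹ * gK⁻¹ := by rw [hχ]; group
    rw [hBdef, h2]
    exact (Commute.conj_iff gK).mpr h1
  -- the slope of `x`
  have s1 : Le ρK (B ^ a) (χ ^ k) := by
    have h1 : Le ρK (xK ^ a * (cK * gK) ^ k) 1 := leK _ _ (fun v hv => by
      have := hf.xu v (xup v hv)
      exact this)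
    have h2 : Le ρK (xK ^ a) (((cK * gK)⁻¹) ^ k) := by
      have h3 := AK.le_right (((cK * gK)⁻¹) ^ k) h1
      rw [one_mul] at h3
      refine (Le.of_eq ?_).tr h3
      rw [inv_pow, mul_inv_cancel_right]
    have h4 := AK.le_right gK⁻¹ (AK.le_left gK h2)
    have e1 : gK * xK ^ a * gK⁻¹ = B ^ a := by rw [hBdef, conj_pow]
    have e2 : gK * ((cK * gK)⁻¹) ^ k * gK⁻¹ = χ ^ k := by
      rw [← conj_pow]; congr 1; rw [hχ]; group
    rwa [e1, e2] at h4
  -- the slope of `e`
  have s2 : Le ρK (ε ^ l) (eK ^ b) := by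
    have h1 : Le ρK (m ^ l) (eK ^ (l + b)) := leK _ _ (fun v hv => by
      have := hf.eu v (eup v hv)
      exact this)
    have h2 : Commute eK⁻¹ m := (show Commute eK m from ce).inv_left
    have h3 := AK.le_left ((eK⁻¹) ^ l) h1
    rw [hε, h2.mul_pow]
    refine h3.tr (Le.of_eq ?_)
    rw [pow_add, inv_pow, inv_mul_cancel_left]
  have d : Le ρK (χ * gK * eK * gK) (eK * ε) := by
    have h1 : Le ρK (eK * gK) (cK * m) := leK _ _ (fun v hv => hd v hv)
    have h2 := AK.le_left (χ * gK) h1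
    refine ((Le.of_eq ?_).tr h2).tr (Le.of_eq ?_)
    · group
    · rw [hχ, hε]; group
  rcases hf.alt with halt | ⟨halt, hgN, -⟩
  · -- equal slopes
    have h1 : Le ρK (B ^ (a * l)) (χ ^ (k * l)) := by
      rw [pow_mul, pow_mul]; exact AK.le_pow s1 l
    have h2 : Le ρK (ε ^ (k * l)) (eK ^ (a * l)) := by
      rw [← halt, mul_comm k l, pow_mul, pow_mul]; exact AK.le_pow s2 k
    have hkl : 1 ≤ k * l := Nat.one_le_iff_ne_zero.mpr (by
      have := hf.hk; have := hf.hl; positivity)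
    exact AK.contra_ge gup' cε eB (m := a * l) (k := k * l) hkl h1 h2 d
  · -- Farey neighbours
    have hk := hf.hk
    have hl := hf.hl
    set n := a / k with hn
    set p := a % k with hp
    have ea : a = n * k + p := by
      have := Nat.div_add_mod a k
      rw [hn, hp, mul_comm]; exact this.symm
    have hpk : p < k := Nat.mod_lt a (by omega)
    have hb : n * l ≤ b := by
      by_contra hcon
      rw [not_le] at hcon
      have h1 : b + 1 ≤ n * l := hcon
      have h2 : (b + 1) * k ≤ n * l * k := Nat.mul_le_mul_right k h1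
      have h3 : b * k = (n * k + p) * l + 1 := by rw [← ea]; exact halt
      nlinarith
    obtain ⟨p', hp'⟩ := Nat.exists_eq_add_of_le hb
    have h3 : p' * k = p * l + 1 := by
      have h3 : b * k = (n * k + p) * l + 1 := by rw [← ea]; exact halt
      rw [hp'] at h3
      nlinarith
    have hp'l : p' ≤ l := by
      by_contra hcon
      rw [not_le] at hcon
      have h1 : (l + 1) * k ≤ p' * k := Nat.mul_le_mul_right k hcon
      have h2 : p * l ≤ (k - 1) * l := Nat.mul_le_mul_right l (by omega)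
      obtain ⟨j, rfl⟩ := Nat.exists_eq_add_of_le' hk
      simp only [Nat.add_sub_cancel] at h2
      nlinarith
    refine AK.contra_lt' gup' cχ cε eB n (p := p) (q := k) (p' := p') (q' := l) hpk.le hp'l h3
      ?_ ?_ d ?_
    · rw [← ea]; exact s1
    · rw [← hp']; exact s2
    · have k1 : Le ρK (xK * eK) (gK ^ (2 * (k + l) - 1)) := leK _ _ (fun v hv => by
        have := hgN v (gup v hv)
        exact this)
      have k2 := AK.le_right (gK * eK) eB
      have k3 := AK.le_left gK k1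
      rw [← pow_succ'] at k3
      refine ((Le.of_eq ?_).tr k2).tr ((Le.of_eq ?_).tr (k3.tr (Le.of_eq ?_)))
      · group
      · rw [hBdef]; group
      · congr 1; omega

/-- All cusps capped. -/
theorem closed5 (h : Rel5 x y c e g) (hx : PCap x (c * g)) (hc : Dmn c (g * x * g⁻¹ * y))
    (hy : Low y (e⁻¹ * c)) (he : Far e (y⁻¹ * g)) (hg : Far g (x * e)) {a k b l : ℕ}
    (hf : Far5 x c e g y a k b l) (s : X) :
    x s = s ∧ y s = s ∧ c s = s ∧ e s = s ∧ g s = s := by
  have h1 : g s = s := by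
    rcases lt_trichotomy (g s) s with h1 | h1 | h1
    · exact absurd h1 (not_up5 (X := Xᵒᵈ) (x := x.dual) (y := y.dual) (c := c.dual)
        (e := e.dual) (g := g.dual) h.dual hx.dual hc.dual hy.dual he.dual hg.dual hf.dual
        (s := s))
    · exact h1
    · exact absurd h1 (not_up5 h hx hc hy he hg hf)
  exact open_g5 hx hc he h1 (hg.fix s h1)

end

end Pool.Agent.L7h76.FV
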