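import Pool.Agent.L7h76.FV.Steps

set_option autoImplicit false

/-!
# The conditions at the tori of the five-chain link
-/

universe u

namespace Pool.Agent.L7h76.FV

open Pool.Agent.L7h76.FC
open Pool.Agent.R649.BT (Cap SCap)

section
variable {X : Type u} [CompleteLinearOrder X] {μ l : X ≃o X}

/-- Where `μ` moves up, `l ^ s` is at most `μ ^ N`. -/
def Under (μ l : X ≃o X) (s N : ℕ) : Prop :=
  (∀ v, v < μ v → (l ^ s) v ≤ (μ ^ N) v) ∧ ∀ v, μ v < v → (μ ^ N) v ≤ (l ^ s) v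

theorem ev_word1 {v : X} : word μ l (-1, 1) v = μ⁻¹ (l v) := by
  unfold word
  rw [zpow_neg_one, zpow_one]; rfl

theorem word_nat (a k : ℕ) : word μ l ((a : ℤ), (k : ℤ)) = μ ^ a * l ^ k := by
  unfold word
  rw [zpow_natCast, zpow_natCast]

theorem ev_word3 {s N : ℕ} {v : X} :
    word μ l (-(N : ℤ), (s : ℤ)) v = (μ ^ N)⁻¹ ((l ^ s) v) := by
  unfold word
  rw [zpow_neg, zpow_natCast, zpow_natCast]; rfl

theorem pow_le' {f : X ≃o X} {v : X} (h : f v ≤ v) (n : ℕ) : (f ^ n) v ≤ v := by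
  induction n with
  | zero => exact le_rfl
  | succ n ih =>
    rw [pow_succ']
    exact (f.monotone ih).trans h

/-! ### Glued manifolds -/

theorem cap0 {a k : ℕ} (hk : 1 ≤ k) (h : SCap μ (word μ l ((a : ℤ), (k : ℤ)))) :
    PCap μ l ∧ PCap μ (μ ^ a * l ^ k) := by
  rw [word_nat] at h
  have hp : PCap μ (μ ^ a * l ^ k) := ⟨h.cap.up, h.cap.down, h.cap.fix⟩
  refine ⟨⟨fun v hv => ?_, fun v hv => ?_, fun v hv => ?_⟩, hp⟩
  · have h1 : (μ ^ a) ((l ^ k) v) ≤ v := hp.up v hv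
    have h2 : v ≤ (μ ^ a) v := pow_le hv.le a
    have h3 : (l ^ k) v ≤ v := by
      by_contra hcon
      rw [not_le] at hcon
      exact absurd (h2.trans_lt ((μ ^ a).lt_iff_lt.mpr hcon)) (not_lt.mpr h1)
    by_contra hcon
    rw [not_le] at hcon
    exact absurd (pow_up hcon hk) (not_lt.mpr h3)
  · have h1 : v ≤ (μ ^ a) ((l ^ k) v) := hp.down v hv
    have h2 : (μ ^ a) v ≤ v := pow_le' hv.le a
    have h3 : v ≤ (l ^ k) v := by
      by_contra hcon
      rw [not_le] at hcon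
      exact absurd (((μ ^ a).lt_iff_lt.mpr hcon).trans_le h2) (not_lt.mpr h1)
    by_contra hcon
    rw [not_le] at hcon
    exact absurd (pow_dn hcon hk) (not_lt.mpr h3)
  · have h1 : (μ ^ a) ((l ^ k) v) = v := hp.fix v hv
    have h2 : (μ ^ a) v = v := pow_fix hv a
    have h3 : (l ^ k) v = v := (μ ^ a).injective (by rw [h1, h2])
    exact root_fix hk h3

theorem cap1 (h : SCap l (word μ l (-1, 1))) : Dmn μ l := by
  refine ⟨fun v hv => ?_, fun v hv => ?_, fun v hv => ?_⟩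
  · have h1 := (h.cap.up v hv)
    rw [ev_word1, ← μ.le_iff_le, aii] at h1
    exact h1
  · have h1 := (h.cap.down v hv)
    rw [ev_word1, ← μ.le_iff_le, aii] at h1
    exact h1
  · have h1 := (h.cap.fix v hv)
    rw [ev_word1, hv] at h1
    have := inv_eq h1
    rwa [inv_inv] at this

theorem cap2 (h : SCap μ (word μ l (-1, 1))) : Low μ l := by
  refine ⟨fun v hv => ?_, fun v hv => ?_, fun v hv => ?_⟩
  · have h1 := (h.cap.up v hv)
    rw [ev_word1, ← μ.le_iff_le, aii] at h1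
    exact h1
  · have h1 := (h.cap.down v hv)
    rw [ev_word1, ← μ.le_iff_le, aii] at h1
    exact h1
  · have h1 := (h.cap.fix v hv)
    rw [ev_word1, ← μ.injective.eq_iff, aii, hv] at h1
    exact h1

/-- `A` and `B` move in opposite directions, so `B` and `A⁻¹` move like `B ^ s * A⁻¹`. -/
theorem opp_up {A B M : X ≃o X} {s : ℕ} (h : SCap A B) (hM : M = B ^ s * A⁻¹) {v : X}
    (hv : v < M v) : v < B v ∧ A v < v := by
  rw [hM] at hv
  change v < (B ^ s) (A⁻¹ v) at hv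
  rcases lt_trichotomy (A v) v with h1 | h1 | h1
  · exact ⟨h.down v h1, h1⟩
  · have h2 := pow_fix (h.fix v h1) s
    rw [inv_eq h1, h2] at hv
    exact absurd hv (lt_irrefl _)
  · have h2 := h.up v h1
    have h3 : A⁻¹ v < v := inv_lt.2 h1
    have h4 : (B ^ s) v ≤ v := pow_le' h2.le s
    exact absurd (hv.trans_le (((B ^ s).monotone h3.le).trans h4)) (lt_irrefl _)

theorem opp_dn {A B M : X ≃o X} {s : ℕ} (h : SCap A B) (hM : M = B ^ s * A⁻¹) {v : X}
    (hv : M v < v) : B v < v ∧ v < A v := by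
  rw [hM] at hv
  change (B ^ s) (A⁻¹ v) < v at hv
  rcases lt_trichotomy (A v) v with h1 | h1 | h1
  · have h2 := h.down v h1
    have h3 : v < A⁻¹ v := lt_inv.2 h1
    have h4 : v ≤ (B ^ s) v := pow_le h2.le s
    exact absurd (hv.trans_le (h4.trans ((B ^ s).monotone h3.le))) (lt_irrefl _)
  · have h2 := pow_fix (h.fix v h1) s
    rw [inv_eq h1, h2] at hv
    exact absurd hv (lt_irrefl _)
  · exact ⟨h.up v h1, h1⟩

theorem opp_fix {A B M : X ≃o X} {s : ℕ} (h : SCap A B) (hM : M = B ^ s * A⁻¹) {v : X}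
    (hv : M v = v) : B v = v := by
  rw [hM] at hv
  change (B ^ s) (A⁻¹ v) = v at hv
  rcases lt_trichotomy (A v) v with h1 | h1 | h1
  · have h2 := h.down v h1
    have h3 : v < A⁻¹ v := lt_inv.2 h1
    have h4 : v ≤ (B ^ s) v := pow_le h2.le s
    exact absurd (h4.trans_lt ((B ^ s).lt_iff_lt.mpr h3)) (by rw [hv]; exact lt_irrefl _)
  · exact h.fix v h1
  · have h2 := h.up v h1
    have h3 : A⁻¹ v < v := inv_lt.2 h1
    have h4 : (B ^ s) v ≤ v := pow_le' h2.le s
    exact absurd (((B ^ s).lt_iff_lt.mpr h3).trans_le h4) (by rw [hv]; exact lt_irrefl _)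

theorem cap3 (hc : Commute μ l) {s b : ℕ}
    (h : SCap (word μ l (-((s + b : ℕ) : ℤ), (s : ℤ))) (word μ l (-1, 1))) :
    Far μ l ∧ Under μ l s (s + b) := by
  have hM : μ ^ b = word μ l (-1, 1) ^ s * (word μ l (-((s + b : ℕ) : ℤ), (s : ℤ)))⁻¹ := by
    rw [← zpow_natCast (word μ l (-1, 1)), ← zpow_neg_one (word μ l (-((s + b : ℕ) : ℤ), (s : ℤ))), word_zpow hc,
      word_zpow hc, word_mul hc]
    have e1 : (s : ℤ) * -1 + -1 * -((s + b : ℕ) : ℤ) = b := by push_cast; ring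
    have e2 : (s : ℤ) * 1 + -1 * (s : ℤ) = 0 := by ring
    rw [e1, e2, zpow_zero, mul_one, zpow_natCast]
  have up : ∀ v, v < (μ ^ b) v → μ v < l v ∧ (l ^ s) v < (μ ^ (s + b)) v := by
    intro v hv
    obtain ⟨h1, h2⟩ := opp_up h hM hv
    rw [ev_word1, ← μ.lt_iff_lt, aii] at h1
    rw [ev_word3, ← (μ ^ (s + b)).lt_iff_lt, aii] at h2
    exact ⟨h1, h2⟩
  have dn : ∀ v, (μ ^ b) v < v → l v < μ v ∧ (μ ^ (s + b)) v < (l ^ s) v := by
    intro v hv
    obtain ⟨h1, h2⟩ := opp_dn h hM hv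
    rw [ev_word1, ← μ.lt_iff_lt, aii] at h1
    rw [ev_word3, ← (μ ^ (s + b)).lt_iff_lt, aii] at h2
    exact ⟨h1, h2⟩
  have fx : ∀ v, (μ ^ b) v = v → l v = μ v := by
    intro v hv
    have h1 := opp_fix h hM hv
    rw [ev_word1, ← μ.injective.eq_iff, aii] at h1
    exact h1
  rcases Nat.eq_zero_or_pos b with rfl | hb
  · have e : l = μ := by
      ext v
      exact fx v (by simp)
    subst e
    exact ⟨⟨fun _ _ => le_rfl, fun _ _ => le_rfl, fun v hv => hv⟩, fun _ _ => le_rfl,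
      fun _ _ => le_rfl⟩
  · refine ⟨⟨fun v hv => (up v (pow_up hv hb)).1.le, fun v hv => (dn v (pow_dn hv hb)).1.le,
      fun v hv => (fx v (pow_fix hv b)).trans hv⟩, fun v hv => (up v (pow_up hv hb)).2.le,
      fun v hv => (dn v (pow_dn hv hb)).2.le⟩

theorem cap4 (h : SCap (word μ l (-1, 0)) (word μ l (-1, 1))) : Far μ l := by
  have e : word μ l (-1, 0) = μ⁻¹ := by
    unfold word
    rw [zpow_neg_one, zpow_zero, mul_one]
  rw [e] at h
  refine ⟨fun v hv => ?_, fun v hv => ?_, fun v hv => ?_⟩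
  · have h1 := h.cap.down v (inv_lt.2 hv)
    rw [ev_word1, ← μ.le_iff_le, aii] at h1
    exact h1
  · have h1 := h.cap.up v (lt_inv.2 hv)
    rw [ev_word1, ← μ.le_iff_le, aii] at h1
    exact h1
  · have h1 := h.cap.fix v (inv_eq hv)
    rw [ev_word1, ← μ.injective.eq_iff, aii] at h1
    rw [h1, hv]

/-! ### Solid tori -/

variable {p q : ℤ}

theorem sol0 (hc : Commute μ l) (hq : 1 ≤ q) (hr : μ ^ p * l ^ q = 1) {a k : ℕ} (hk : 1 ≤ k)
    (hz : (a : ℤ) * q ≤ k * p) : PCap μ l ∧ PCap μ (μ ^ a * l ^ k) := by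
  have hp : 0 ≤ p := by
    by_contra hcon
    rw [not_le] at hcon
    have h1 : (k : ℤ) * p < 0 := mul_neg_of_pos_of_neg (by exact_mod_cast hk) hcon
    have h2 : 0 ≤ (a : ℤ) * q := by positivity
    omega
  have w : word μ l (0, 1) = l := by
    unfold word
    rw [zpow_zero, one_mul, zpow_one]
  constructor
  · have h1 := sol_le hc hq hr (0, 1) (by simpa using hp)
    have h2 := sol_fix hc hq hr (0, 1)
    rw [w] at h1 h2
    exact ⟨h1.1, h1.2, h2⟩
  · have h1 := sol_le hc hq hr ((a : ℤ), (k : ℤ)) hz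
    have h2 := sol_fix hc hq hr ((a : ℤ), (k : ℤ))
    rw [word_nat] at h1 h2
    exact ⟨h1.1, h1.2, h2⟩

theorem sol1 (hc : Commute μ l) (hq : 1 ≤ q) (hr : μ ^ p * l ^ q = 1) (hp : p < 0)
    (hz : -q ≤ p) : Dmn μ l := by
  have w : word μ l (0, 1) = l := by
    unfold word
    rw [zpow_zero, one_mul, zpow_one]
  have h1 := sol_gt hc hq hr (0, 1) (by simpa using hp)
  have h2 := sol_fix hc hq hr (0, 1)
  have h3 := sol_le hc hq hr (-1, 1) (by simpa using hz)
  rw [w] at h1 h2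
  have iu : ∀ v, v < l v → v < μ v := by
    intro v hv
    rcases lt_trichotomy (μ v) v with h4 | h4 | h4
    · exact absurd hv (not_lt.mpr (h1.2 v h4).le)
    · exact absurd (h2 v h4) hv.ne'
    · exact h4
  have id : ∀ v, l v < v → μ v < v := by
    intro v hv
    rcases lt_trichotomy (μ v) v with h4 | h4 | h4
    · exact h4
    · exact absurd (h2 v h4) hv.ne
    · exact absurd hv (not_lt.mpr (h1.1 v h4).le)
  refine ⟨fun v hv => ?_, fun v hv => ?_, fun v hv => ?_⟩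
  · have h4 := h3.1 v (iu v hv)
    rw [ev_word1, ← μ.le_iff_le, aii] at h4
    exact h4
  · have h4 := h3.2 v (id v hv)
    rw [ev_word1, ← μ.le_iff_le, aii] at h4
    exact h4
  · rcases lt_trichotomy (μ v) v with h4 | h4 | h4
    · exact absurd hv (h1.2 v h4).ne
    · exact h4
    · exact absurd hv (h1.1 v h4).ne'

theorem sol2 (hc : Commute μ l) (hq : 1 ≤ q) (hr : μ ^ p * l ^ q = 1) (hz : -q ≤ p) :
    Low μ l := by
  have h3 := sol_le hc hq hr (-1, 1) (by simpa using hz)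
  have h2 := sol_fix hc hq hr (-1, 1)
  refine ⟨fun v hv => ?_, fun v hv => ?_, fun v hv => ?_⟩
  · have h4 := h3.1 v hv
    rw [ev_word1, ← μ.le_iff_le, aii] at h4
    exact h4
  · have h4 := h3.2 v hv
    rw [ev_word1, ← μ.le_iff_le, aii] at h4
    exact h4
  · have h4 := h2 v hv
    rw [ev_word1, ← μ.injective.eq_iff, aii, hv] at h4
    exact h4

theorem sol4 (hc : Commute μ l) (hq : 1 ≤ q) (hr : μ ^ p * l ^ q = 1) (hz : p ≤ -q) :
    Far μ l := by
  have h3 := sol_ge hc hq hr (-1, 1) (by simpa using hz)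
  have h2 := sol_fix hc hq hr (-1, 1)
  refine ⟨fun v hv => ?_, fun v hv => ?_, fun v hv => ?_⟩
  · have h4 := h3.1 v hv
    rw [ev_word1, ← μ.le_iff_le, aii] at h4
    exact h4
  · have h4 := h3.2 v hv
    rw [ev_word1, ← μ.le_iff_le, aii] at h4
    exact h4
  · have h4 := h2 v hv
    rw [ev_word1, ← μ.injective.eq_iff, aii, hv] at h4
    exact h4

theorem sol3 (hc : Commute μ l) (hq : 1 ≤ q) (hr : μ ^ p * l ^ q = 1) {s N : ℕ}
    (hz : -((N : ℤ) * q) ≤ s * p) : Under μ l s N := by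
  have h3 := sol_le hc hq hr (-(N : ℤ), (s : ℤ)) (by simpa using hz)
  constructor
  · intro v hv
    have h4 := h3.1 v hv
    rw [ev_word3, ← (μ ^ N).le_iff_le, aii] at h4
    exact h4
  · intro v hv
    have h4 := h3.2 v hv
    rw [ev_word3, ← (μ ^ N).le_iff_le, aii] at h4
    exact h4

/-! ### Conjugation and inversion -/

theorem PCap.inv {A B : X ≃o X} (h : PCap A B) : PCap A⁻¹ B⁻¹ := by
  refine ⟨fun v hv => ?_, fun v hv => ?_, fun v hv => ?_⟩
  · have h1 : A v < v := by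
      rw [← (A⁻¹).lt_iff_lt, iia]; exact hv
    have h2 := h.down v h1
    rw [← B.le_iff_le, aii]; exact h2
  · have h1 : v < A v := by
      rw [← (A⁻¹).lt_iff_lt, iia]; exact hv
    have h2 := h.up v h1
    rw [← B.le_iff_le, aii]; exact h2
  · have h1 := inv_eq hv
    rw [inv_inv] at h1
    exact inv_eq (h.fix v h1)

theorem PCap.conj {A B : X ≃o X} (h : PCap A B) (g : X ≃o X) :
    PCap (g⁻¹ * A * g) (g⁻¹ * B * g) :=
  Pool.Agent.Results.MP_9ae2f3_gt.FourChainPieces.pcap_conj h g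

end

end Pool.Agent.L7h76.FV
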