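import Pool.Agent.L7h76.FC.Key
import Pool.Agent.L7h76.FV.Closed

set_option autoImplicit false

/-!
# Boundary elements with a slope in the interior of a rational interval
-/

universe u v

namespace Pool.Agent.L7h76.FV

open Pool.Agent.L7h76.FC
open Pool.Agent.R649.BT (Cap SCap)
open Pool.Agent.L7h76.MT (Dir Both)

/-- The element with coordinates `w` in the group generated by `μ` and `l`. -/
def word {G : Type*} [Group G] (μ l : G) (w : ℤ × ℤ) : G := μ ^ w.1 * l ^ w.2

/-- The elements of the group generated by `μ` and `l` with coordinates in the interior of the cone generated by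
`u` and `v` (empty if `u` and `v` are linearly dependent). -/
def inside {G : Type*} [Group G] (μ l : G) (u v : ℤ × ℤ) : Set G :=
  {g | u.1 * v.2 - u.2 * v.1 ≠ 0 ∧ ∃ (w : ℤ × ℤ) (n A B : ℕ), 1 ≤ n ∧ 1 ≤ A ∧ 1 ≤ B ∧
    (n : ℤ) * w.1 = A * u.1 + B * v.1 ∧ (n : ℤ) * w.2 = A * u.2 + B * v.2 ∧ g = word μ l w}

section group
variable {G : Type*} [Group G] {μ l : G}

theorem word_comm (hc : Commute μ l) (u v : ℤ × ℤ) : Commute (word μ l u) (word μ l v) := by
  unfold word
  have c1 : Commute (μ ^ u.1) (μ ^ v.1 * l ^ v.2) :=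
    ((Commute.refl μ).zpow_zpow u.1 v.1).mul_right (hc.zpow_zpow u.1 v.2)
  have c2 : Commute (l ^ u.2) (μ ^ v.1 * l ^ v.2) :=
    (hc.symm.zpow_zpow u.2 v.1).mul_right ((Commute.refl l).zpow_zpow u.2 v.2)
  exact c1.mul_left c2

theorem word_zpow (hc : Commute μ l) (u : ℤ × ℤ) (n : ℤ) :
    word μ l u ^ n = μ ^ (n * u.1) * l ^ (n * u.2) := by
  unfold word
  rw [(hc.zpow_zpow u.1 u.2).mul_zpow, ← zpow_mul, ← zpow_mul, mul_comm u.1, mul_comm u.2]

theorem word_mul (hc : Commute μ l) (a b c d : ℤ) :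
    (μ ^ a * l ^ b) * (μ ^ c * l ^ d) = μ ^ (a + c) * l ^ (b + d) := by
  have h := (hc.symm.zpow_zpow b c).eq
  calc (μ ^ a * l ^ b) * (μ ^ c * l ^ d) = μ ^ a * (l ^ b * μ ^ c) * l ^ d := by
        simp only [mul_assoc]
    _ = μ ^ a * (μ ^ c * l ^ b) * l ^ d := by rw [h]
    _ = μ ^ (a + c) * l ^ (b + d) := by rw [zpow_add, zpow_add]; simp only [mul_assoc]

theorem word_pow_pow (hc : Commute μ l) (u v : ℤ × ℤ) (A B : ℕ) :
    word μ l u ^ A * word μ l v ^ B
      = μ ^ ((A : ℤ) * u.1 + B * v.1) * l ^ ((A : ℤ) * u.2 + B * v.2) := by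
  rw [← zpow_natCast, ← zpow_natCast, word_zpow hc, word_zpow hc, word_mul hc]

end group

section iter
variable {X : Type u} [LinearOrder X] {f : X ≃o X} {v : X}

theorem pow_up (h : v < f v) {n : ℕ} (hn : 1 ≤ n) : v < (f ^ n) v := by
  induction n, hn using Nat.le_induction with
  | base => simpa using h
  | succ n _ ih =>
    rw [pow_succ']
    exact h.trans (f.lt_iff_lt.mpr ih)

theorem pow_dn (h : f v < v) {n : ℕ} (hn : 1 ≤ n) : (f ^ n) v < v := by
  induction n, hn using Nat.le_induction with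
  | base => simpa using h
  | succ n _ ih =>
    rw [pow_succ']
    exact (f.lt_iff_lt.mpr ih).trans h

theorem pow_fix (h : f v = v) (n : ℕ) : (f ^ n) v = v := by
  induction n with
  | zero => rfl
  | succ n ih =>
    rw [pow_succ']
    show f ((f ^ n) v) = v
    rw [ih, h]

theorem pow_le (h : v ≤ f v) (n : ℕ) : v ≤ (f ^ n) v := by
  rcases h.eq_or_lt with h | h
  · rw [pow_fix h.symm]
  · rcases Nat.eq_zero_or_pos n with rfl | hn
    · exact le_rfl
    · exact (pow_up h hn).le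

theorem root_up {n : ℕ} (h : v < (f ^ n) v) : v < f v := by
  rcases Nat.eq_zero_or_pos n with rfl | hn
  · exact absurd h (lt_irrefl _)
  · rcases lt_trichotomy (f v) v with h1 | h1 | h1
    · exact absurd h (not_lt.mpr (pow_dn h1 hn).le)
    · exact absurd (pow_fix h1 n) h.ne'
    · exact h1

theorem root_dn {n : ℕ} (h : (f ^ n) v < v) : f v < v := by
  rcases Nat.eq_zero_or_pos n with rfl | hn
  · exact absurd h (lt_irrefl _)
  · rcases lt_trichotomy (f v) v with h1 | h1 | h1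
    · exact h1
    · exact absurd (pow_fix h1 n) h.ne
    · exact absurd h (not_lt.mpr (pow_up h1 hn).le)

theorem root_fix {n : ℕ} (hn : 1 ≤ n) (h : (f ^ n) v = v) : f v = v := by
  rcases lt_trichotomy (f v) v with h1 | h1 | h1
  · exact absurd h (pow_dn h1 hn).ne
  · exact h1
  · exact absurd h (pow_up h1 hn).ne'

theorem zpow_fix (h : f v = v) (n : ℤ) : (f ^ n) v = v := by
  have h1 : f ∈ MulAction.stabilizer (X ≃o X) v := h
  exact (MulAction.stabilizer (X ≃o X) v).zpow_mem h1 n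

theorem zroot_fix {n : ℤ} (hn : n ≠ 0) (h : (f ^ n) v = v) : f v = v := by
  refine root_fix (n := n.natAbs) (by omega) ?_
  rcases Int.natAbs_eq n with h1 | h1
  · rw [h1] at h
    rwa [zpow_natCast] at h
  · rw [h1, zpow_neg, zpow_natCast] at h
    have := inv_eq h
    rwa [inv_inv] at this

end iter

variable {N : Type v} [Group N] {μ l : N} {u w : ℤ × ℤ}

/-- Boundary elements with a slope in the interior of an interval. -/
theorem dir_inside (hc : Commute μ l)
    (fix : ∀ (X : Type u) [CompleteLinearOrder X] (ρ : N →* (X ≃o X)) (p : X), ρ μ p = p →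
      ρ l p = p → ∀ g, ρ g p = p)
    (closed : ∀ (X : Type u) [CompleteLinearOrder X] (ρ : N →* (X ≃o X)),
      SCap (ρ (word μ l u)) (ρ (word μ l w)) → ∀ g p, ρ g p = p) :
    Dir.{u} N (inside μ l u w) := by
  by_cases hd : u.1 * w.2 - u.2 * w.1 = 0
  · have he : inside μ l u w = ∅ := by
      ext g
      simp [inside, hd]
    rw [he]
    exact ⟨fun y hy => absurd hy (Set.notMem_empty y),
      fun X _ ρ y hy => absurd hy (Set.notMem_empty y),
      fun X _ ρ y hy => absurd hy (Set.notMem_empty y)⟩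
  have hcw := word_comm hc u w
  have fix' : ∀ (X : Type u) [CompleteLinearOrder X] (ρ : N →* (X ≃o X)) (p : X),
      ρ (word μ l u) p = p → ρ (word μ l w) p = p → ∀ g, ρ g p = p := by
    intro X _ ρ p h1 h2
    have f1 : ∀ i j : ℤ, ρ (word μ l u ^ i * word μ l w ^ j) p = p := by
      intro i j
      rw [map_mul, map_zpow, map_zpow]
      show (ρ (word μ l u) ^ i) ((ρ (word μ l w) ^ j) p) = p
      rw [zpow_fix h2, zpow_fix h1]
    have e1 : word μ l u ^ w.2 * word μ l w ^ (-u.2) = μ ^ (u.1 * w.2 - u.2 * w.1) := by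
      rw [word_zpow hc, word_zpow hc, word_mul hc]
      have a1 : w.2 * u.1 + -u.2 * w.1 = u.1 * w.2 - u.2 * w.1 := by ring
      have a2 : w.2 * u.2 + -u.2 * w.2 = 0 := by ring
      rw [a1, a2, zpow_zero, mul_one]
    have e2 : word μ l u ^ (-w.1) * word μ l w ^ u.1 = l ^ (u.1 * w.2 - u.2 * w.1) := by
      rw [word_zpow hc, word_zpow hc, word_mul hc]
      have a1 : -w.1 * u.1 + u.1 * w.1 = 0 := by ring
      have a2 : -w.1 * u.2 + u.1 * w.2 = u.1 * w.2 - u.2 * w.1 := by ring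
      rw [a1, a2, zpow_zero, one_mul]
    have g1 := f1 w.2 (-u.2)
    have g2 := f1 (-w.1) u.1
    rw [e1, map_zpow] at g1
    rw [e2, map_zpow] at g2
    exact fix X ρ p (zroot_fix hd g1) (zroot_fix hd g2)
  -- directions of the elements
  have dir : ∀ g ∈ inside μ l u w, ∃ n A B : ℕ, 1 ≤ n ∧ 1 ≤ A ∧ 1 ≤ B ∧
      g ^ n = word μ l u ^ A * word μ l w ^ B := by
    rintro g ⟨-, z, n, A, B, hn, hA, hB, h1, h2, rfl⟩
    refine ⟨n, A, B, hn, hA, hB, ?_⟩
    rw [word_pow_pow hc, ← h1, ← h2, ← zpow_natCast, word_zpow hc]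
  refine ⟨?_, ?_, ?_⟩
  · rintro _ ⟨-, z, -, -, -, -, -, -, -, -, rfl⟩ _ ⟨-, z', -, -, -, -, -, -, -, -, rfl⟩
    exact word_comm hc z z'
  · intro X _ ρ y hy z hz p hp
    obtain ⟨n, A, B, hn, hA, hB, e1⟩ := dir y hy
    obtain ⟨n', A', B', hn', hA', hB', e2⟩ := dir z hz
    rcases key_scap hcw fix' closed ρ p with h | h | h
    · rw [h] at hp; exact absurd hp (lt_irrefl _)
    · have h3 := h A' B' hA' hB'
      rw [← e2, map_pow] at h3
      exact root_up h3
    · have h3 := h A B hA hB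
      rw [← e1, map_pow] at h3
      exact absurd hp (not_lt.mpr (root_dn h3).le)
  · intro X _ ρ y hy p hp
    obtain ⟨n, A, B, hn, hA, hB, e1⟩ := dir y hy
    have hp' := pow_fix hp n
    rcases key_scap hcw fix' closed ρ p with h | h | h
    · exact h
    · have h3 := h A B hA hB
      rw [← e1, map_pow, hp'] at h3
      exact absurd h3 (lt_irrefl _)
    · have h3 := h A B hA hB
      rw [← e1, map_pow, hp'] at h3
      exact absurd h3 (lt_irrefl _)

/-! ### Solid tori -/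

section solid
variable {X : Type u} [CompleteLinearOrder X] {μ l : X ≃o X} {p q : ℤ}

theorem sol_pow (hc : Commute μ l) (hr : μ ^ p * l ^ q = 1) (z : ℤ × ℤ) :
    word μ l z ^ q = μ ^ (z.1 * q - z.2 * p) := by
  rw [word_zpow hc]
  have h1 : l ^ q = μ ^ (-p) := by
    rw [zpow_neg]; exact (inv_eq_of_mul_eq_one_right hr).symm
  have h2 : l ^ (q * z.2) = μ ^ (-p * z.2) := by
    rw [zpow_mul, h1, ← zpow_mul]
  rw [h2, ← zpow_add]
  congr 1; ring

theorem isActId : Pool.Agent.TH49.FC.IsAct (fun a : X ≃o X => a) :=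
  ⟨fun _ _ _ => rfl, fun _ => rfl⟩

theorem sol_le (hc : Commute μ l) (hq : 1 ≤ q) (hr : μ ^ p * l ^ q = 1) (z : ℤ × ℤ)
    (hz : z.1 * q ≤ z.2 * p) :
    (∀ v, v < μ v → word μ l z v ≤ v) ∧ ∀ v, μ v < v → v ≤ word μ l z v := by
  have h := isActId.non hq (sol_pow hc hr z) (by omega)
  exact ⟨h.up, h.dn⟩

theorem sol_ge (hc : Commute μ l) (hq : 1 ≤ q) (hr : μ ^ p * l ^ q = 1) (z : ℤ × ℤ)
    (hz : z.2 * p ≤ z.1 * q) :
    (∀ v, v < μ v → v ≤ word μ l z v) ∧ ∀ v, μ v < v → word μ l z v ≤ v := by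
  have h := isActId.pos hq (sol_pow hc hr z) (by omega)
  exact ⟨h.up, h.dn⟩

theorem sol_gt (hc : Commute μ l) (hq : 1 ≤ q) (hr : μ ^ p * l ^ q = 1) (z : ℤ × ℤ)
    (hz : z.2 * p < z.1 * q) :
    (∀ v, v < μ v → v < word μ l z v) ∧ ∀ v, μ v < v → word μ l z v < v := by
  have h := isActId.spos hq (sol_pow hc hr z) (by omega)
  exact ⟨h.up, h.dn⟩

theorem sol_fix (hc : Commute μ l) (hq : 1 ≤ q) (hr : μ ^ p * l ^ q = 1) (z : ℤ × ℤ) (v : X)
    (hv : μ v = v) : word μ l z v = v :=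
  isActId.fix hq (sol_pow hc hr z) hv

end solid

end Pool.Agent.L7h76.FV
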