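import Pool.Agent.L7h76.FC.DynB

set_option autoImplicit false

/-!
# The exterior of the minimally twisted five-chain link: open cusps
-/

universe u

namespace Pool.Agent.L7h76.FV

open Pool.Agent.L7h76.FC

/-- The commutation relations of the five-chain link. -/
structure Rel5 {G : Type*} [Group G] (x y c e g : G) : Prop where
  cx : x * (c * g) = (c * g) * x
  cc : c * (g * x * g⁻¹ * y) = (g * x * g⁻¹ * y) * c
  cy : y * (e⁻¹ * c) = (e⁻¹ * c) * y
  ce : e * (y⁻¹ * g) = (y⁻¹ * g) * e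
  cg : g * (x * e) = (x * e) * g

section pt
variable {X : Type u} [CompleteLinearOrder X]

theorem Rel5.dual {x y c e g : X ≃o X} (h : Rel5 x y c e g) :
    Rel5 (G := Xᵒᵈ ≃o Xᵒᵈ) x.dual y.dual c.dual e.dual g.dual := by
  have key : ∀ f g : X ≃o X, f = g → f.dual = g.dual := fun f g e => by rw [e]
  exact ⟨key _ _ h.cx, key _ _ h.cc, key _ _ h.cy, key _ _ h.ce, key _ _ h.cg⟩

/-- `l` moves points at least as far as `e`, in the same direction. -/
structure Far (e l : X ≃o X) : Prop where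
  up : ∀ v, v < e v → e v ≤ l v
  dn : ∀ v, e v < v → l v ≤ e v
  fix : ∀ v, e v = v → l v = v

theorem Far.dual {e l : X ≃o X} (h : Far e l) : Far (X := Xᵒᵈ) e.dual l.dual :=
  ⟨h.dn, h.up, h.fix⟩

variable {x y c e g : X ≃o X}

/-- `c b = x c` with `b = g x g⁻¹`. -/
theorem Rel5.cb (h : Rel5 x y c e g) (v : X) : c ((g * x * g⁻¹) v) = x (c v) := by
  have h1 := h.cx
  have h2 : c * (g * x * g⁻¹) = x * c := by
    calc c * (g * x * g⁻¹) = ((c * g) * x) * g⁻¹ := by group
      _ = (x * (c * g)) * g⁻¹ := by rw [h1]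
      _ = x * c := by group
  exact DFunLike.congr_fun h2 v

/-! ### The cusp of `g` -/

theorem open_g_aux {f : X} (hx : f < x f → (c * g) f ≤ f) (hc : Dmn c (g * x * g⁻¹ * y))
    (he : ∀ v, e v < v → (y⁻¹ * g) v ≤ e v) (hg : g f = f) (hz : (x * e) f = f) :
    ¬ f < x f := by
  intro h1
  have h2 : e f < f := by
    have h3 : x (e f) = f := hz
    rw [← x.lt_iff_lt, h3]; exact h1
  have h3 : y⁻¹ f < f := by
    have h4 := (he f h2).trans_lt h2
    change y⁻¹ (g f) < f at h4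
    rwa [hg] at h4
  have h4 : f < y f := inv_lt.1 h3
  have h5 : f < (g * x * g⁻¹ * y) f := by
    show f < g (x (g⁻¹ (y f)))
    have a1 : f < g⁻¹ (y f) := by
      have := (g⁻¹).lt_iff_lt.mpr h4
      rwa [inv_eq hg] at this
    have a2 : f < x (g⁻¹ (y f)) := h1.trans (x.lt_iff_lt.mpr a1)
    have := g.lt_iff_lt.mpr a2
    rwa [hg] at this
  have h6 : f < c f := h5.trans_le (hc.up f h5)
  have h7 : c (g f) ≤ f := hx h1
  rw [hg] at h7
  exact absurd h6 (not_lt.mpr h7)

theorem open_g5 {f : X} (hx : PCap x (c * g)) (hc : Dmn c (g * x * g⁻¹ * y))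
    (he : Far e (y⁻¹ * g)) (hg : g f = f) (hz : (x * e) f = f) :
    x f = f ∧ y f = f ∧ c f = f ∧ e f = f ∧ g f = f := by
  have h1 : x f = f := by
    rcases lt_trichotomy (x f) f with h1 | h1 | h1
    · exact absurd h1 (open_g_aux (X := Xᵒᵈ) (x := x.dual) (y := y.dual) (c := c.dual)
        (e := e.dual) (g := g.dual) (f := f) (hx.down f) hc.dual he.up hg hz)
    · exact h1
    · exact absurd h1 (open_g_aux (hx.up f) hc he.dn hg hz)
  have h2 : e f = f := by
    have h3 : x (e f) = f := hz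
    exact x.injective (by rw [h3, h1])
  have h3 : y f = f := by
    have h4 : y⁻¹ (g f) = f := he.fix f h2
    rw [hg] at h4
    have := aii y f
    rwa [h4] at this
  have h4 : c f = f := by
    have h5 : c (g f) = f := hx.fix f h1
    rwa [hg] at h5
  exact ⟨h1, h3, h4, h2, hg⟩

/-! ### The cusp of `e` -/

theorem open_e_aux {f : X} (hx : f < x f → (c * g) f ≤ f) (hc : Dmn c (g * x * g⁻¹ * y))
    (hg : f < g f → g f ≤ (x * e) f) (hef : e f = f) (hl : (y⁻¹ * g) f = f) :
    ¬ f < g f := by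
  intro h1
  have h2 : g f ≤ x f := by
    have := hg h1
    change g f ≤ x (e f) at this
    rwa [hef] at this
  have h3 : f < x f := h1.trans_le h2
  have h4 : y f = g f := by
    have h5 : y⁻¹ (g f) = f := hl
    have := aii y (g f)
    rwa [h5] at this
  have h5 : f < (g * x * g⁻¹ * y) f := by
    show f < g (x (g⁻¹ (y f)))
    rw [h4, iia]
    exact h1.trans (g.lt_iff_lt.mpr h3)
  have h6 : f < c f := h5.trans_le (hc.up f h5)
  have h7 : c (g f) ≤ f := hx h3
  exact absurd (h6.trans (c.lt_iff_lt.mpr h1)) (not_lt.mpr h7)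

theorem open_e5 {f : X} (hx : PCap x (c * g)) (hc : Dmn c (g * x * g⁻¹ * y))
    (hg : Far g (x * e)) (hef : e f = f) (hl : (y⁻¹ * g) f = f) :
    x f = f ∧ y f = f ∧ c f = f ∧ e f = f ∧ g f = f := by
  have h1 : g f = f := by
    rcases lt_trichotomy (g f) f with h1 | h1 | h1
    · exact absurd h1 (open_e_aux (X := Xᵒᵈ) (x := x.dual) (y := y.dual) (c := c.dual)
        (e := e.dual) (g := g.dual) (f := f) (hx.down f) hc.dual (hg.dn f) hef hl)
    · exact h1
    · exact absurd h1 (open_e_aux (hx.up f) hc (hg.up f) hef hl)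
  have h2 : x f = f := by
    have h3 : x (e f) = f := hg.fix f h1
    rwa [hef] at h3
  have h3 : y f = f := by
    have h4 : y⁻¹ (g f) = f := hl
    rw [h1] at h4
    have := aii y f
    rwa [h4] at this
  have h4 : c f = f := by
    have h5 : c (g f) = f := hx.fix f h2
    rwa [h1] at h5
  exact ⟨h2, h3, h4, hef, h1⟩

/-! ### The cusp of `y` -/

theorem open_y_aux {f : X} (h : Rel5 x y c e g) (hx : PCap x (c * g))
    (hc : Dmn c (g * x * g⁻¹ * y)) (hg : f < g f → g f ≤ (x * e) f) (hyf : y f = f)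
    (hl : (e⁻¹ * c) f = f) : ¬ f < g f := by
  intro h1
  have h2 : e f = c f := by
    have h5 : e⁻¹ (c f) = f := hl
    have := aii e (c f)
    rw [h5] at this; exact this
  have h3 : g f ≤ x (c f) := by
    have := hg h1
    change g f ≤ x (e f) at this
    rwa [h2] at this
  have hz : (g * x * g⁻¹ * y) f = (g * x * g⁻¹) f := by
    show (g * x * g⁻¹) (y f) = _
    rw [hyf]
  rcases lt_trichotomy (c f) f with h4 | h4 | h4
  · have h5 := hc.dn_iff h4
    rw [hz] at h5
    have h6 := c.lt_iff_lt.mpr h5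
    rw [h.cb] at h6
    exact absurd (h3.trans_lt (h6.trans h4)) (not_lt.mpr h1.le)
  · have h5 := hc.fix_iff h4
    rw [hz] at h5
    have h6 := congrArg c h5
    rw [h.cb, h4] at h6
    rw [h4, h6] at h3
    exact absurd h1 (not_lt.mpr h3)
  · have h5 := hc.up_iff h4
    rw [hz] at h5
    have h6 := c.lt_iff_lt.mpr h5
    rw [h.cb] at h6
    have h7 : c (g (c f)) ≤ c f := hx.up _ h6
    have h8 : g (c f) ≤ f := c.le_iff_le.mp h7
    exact absurd (h1.trans (g.lt_iff_lt.mpr h4)) (not_lt.mpr h8)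

theorem open_y_aux2 {f : X} (hx : f < x f → (c * g) f ≤ f)
    (hc : Dmn c (g * x * g⁻¹ * y)) (hyf : y f = f) (hgf : g f = f) : ¬ f < x f := by
  intro h1
  have h2 : f < (g * x * g⁻¹ * y) f := by
    show f < g (x (g⁻¹ (y f)))
    rw [hyf, inv_eq hgf]
    have := g.lt_iff_lt.mpr h1
    rwa [hgf] at this
  have h3 : f < c f := h2.trans_le (hc.up f h2)
  have h4 : c (g f) ≤ f := hx h1
  rw [hgf] at h4
  exact absurd h3 (not_lt.mpr h4)

theorem open_y5 {f : X} (h : Rel5 x y c e g) (hx : PCap x (c * g))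
    (hc : Dmn c (g * x * g⁻¹ * y)) (hg : Far g (x * e)) (hyf : y f = f)
    (hl : (e⁻¹ * c) f = f) :
    x f = f ∧ y f = f ∧ c f = f ∧ e f = f ∧ g f = f := by
  have h1 : g f = f := by
    rcases lt_trichotomy (g f) f with h1 | h1 | h1
    · exact absurd h1 (open_y_aux (X := Xᵒᵈ) (x := x.dual) (y := y.dual) (c := c.dual)
        (e := e.dual) (g := g.dual) (f := f) h.dual hx.dual hc.dual (hg.dn f) hyf hl)
    · exact h1
    · exact absurd h1 (open_y_aux h hx hc (hg.up f) hyf hl)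
  have h2 : x f = f := by
    rcases lt_trichotomy (x f) f with h2 | h2 | h2
    · exact absurd h2 (open_y_aux2 (X := Xᵒᵈ) (x := x.dual) (y := y.dual) (c := c.dual)
        (g := g.dual) (f := f) (hx.down f) hc.dual hyf h1)
    · exact h2
    · exact absurd h2 (open_y_aux2 (hx.up f) hc hyf h1)
  have h3 : c f = f := by
    have h5 : c (g f) = f := hx.fix f h2
    rwa [h1] at h5
  have h4 : e f = f := by
    have h5 : x (e f) = f := hg.fix f h1
    exact x.injective (by rw [h5, h2])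
  exact ⟨h2, hyf, h3, h4, h1⟩

/-! ### The cusp of `c` -/

theorem open_c_aux {f : X} (h : Rel5 x y c e g) (hx : PCap x (c * g))
    (he : ∀ v, v < e v → e v ≤ (y⁻¹ * g) v) (hg : ∀ v, v < g v → g v ≤ (x * e) v)
    (hcf : c f = f) (hz : (g * x * g⁻¹ * y) f = f) : ¬ f < g f := by
  intro h1
  have h2 : f < c (g f) := by
    have := c.lt_iff_lt.mpr h1
    rwa [hcf] at this
  -- `x` moves `f` down
  have h3 : x f < f := by
    rcases lt_trichotomy (x f) f with h3 | h3 | h3
    · exact h3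
    · exact absurd (hx.fix f h3) h2.ne'
    · exact absurd h2 (not_lt.mpr (hx.up f h3))
  have hgf : g⁻¹ f < f := inv_lt.2 h1
  -- `p = (x e)⁻¹ f`
  have hxe : ∀ v, g (x (e v)) = x (e (g v)) := fun v => DFunLike.congr_fun h.cg v
  set p := e⁻¹ (x⁻¹ f) with hp
  have xep : x (e p) = f := by rw [hp, aii, aii]
  have gp : p < g p := by
    have h4 : x (e p) < x (e (g p)) := by rw [← hxe, xep]; exact h1
    exact e.lt_iff_lt.mp (x.lt_iff_lt.mp h4)
  have h5 : p ≤ g⁻¹ f := by
    have h6 := hg p gp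
    change g p ≤ x (e p) at h6
    rw [xep] at h6
    rw [← g.le_iff_le, aii]; exact h6
  have h6 : f < x⁻¹ f := lt_inv.2 h3
  have h7 : e⁻¹ f < g⁻¹ f := by
    have : e⁻¹ f < p := (e⁻¹).lt_iff_lt.mpr h6
    exact this.trans_le h5
  have h8 : f < e f := inv_lt.1 (h7.trans hgf)
  have h9 := he f h8
  -- `l⁻¹ f ≤ e⁻¹ f`
  have hle : ∀ v, e (y⁻¹ (g v)) = y⁻¹ (g (e v)) := fun v => DFunLike.congr_fun h.ce v
  have h10 : g⁻¹ (y f) ≤ e⁻¹ f := by
    have a1 : y⁻¹ (g (e⁻¹ f)) = e⁻¹ (y⁻¹ (g f)) := by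
      rw [← e.injective.eq_iff, aii, hle, aii]
    have a2 : f ≤ y⁻¹ (g (e⁻¹ f)) := by
      rw [a1, ← e.le_iff_le, aii]; exact h9
    have a3 := y.monotone a2
    rw [aii] at a3
    rw [← g.le_iff_le, aii]; exact a3
  have h11 : g⁻¹ (y f) = x⁻¹ (g⁻¹ f) := by
    have a1 : g (x (g⁻¹ (y f))) = f := hz
    rw [← x.injective.eq_iff, aii, ← g.injective.eq_iff, aii, a1]
  rw [h11] at h10
  have h12 : g⁻¹ f < x (g⁻¹ f) := inv_lt.1 (h10.trans_lt h7)
  have h13 : c (g (g⁻¹ f)) ≤ g⁻¹ f := hx.up _ h12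
  rw [aii, hcf] at h13
  exact absurd hgf (not_lt.mpr h13)

theorem open_c_aux2 {f : X} (he : ∀ v, e v < v → (y⁻¹ * g) v ≤ e v)
    (hgf : g f = f) (hxe : (x * e) f = f) (hz : (g * x * g⁻¹ * y) f = f) : ¬ f < x f := by
  intro h1
  have h2 : e f < f := by
    have h3 : x (e f) = f := hxe
    rw [← x.lt_iff_lt, h3]; exact h1
  have h3 : y⁻¹ f < f := by
    have h4 := (he f h2).trans_lt h2
    change y⁻¹ (g f) < f at h4
    rwa [hgf] at h4
  have h4 : f < y f := inv_lt.1 h3
  have h5 : f < (g * x * g⁻¹ * y) f := by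
    show f < g (x (g⁻¹ (y f)))
    have a1 : f < g⁻¹ (y f) := by
      have := (g⁻¹).lt_iff_lt.mpr h4
      rwa [inv_eq hgf] at this
    have a2 : f < x (g⁻¹ (y f)) := h1.trans (x.lt_iff_lt.mpr a1)
    have := g.lt_iff_lt.mpr a2
    rwa [hgf] at this
  exact absurd hz h5.ne'

theorem open_c5 {f : X} (h : Rel5 x y c e g) (hx : PCap x (c * g))
    (he : Far e (y⁻¹ * g)) (hg : Far g (x * e)) (hcf : c f = f)
    (hz : (g * x * g⁻¹ * y) f = f) :
    x f = f ∧ y f = f ∧ c f = f ∧ e f = f ∧ g f = f := by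
  have h1 : g f = f := by
    rcases lt_trichotomy (g f) f with h1 | h1 | h1
    · exact absurd h1 (open_c_aux (X := Xᵒᵈ) (x := x.dual) (y := y.dual) (c := c.dual)
        (e := e.dual) (g := g.dual) (f := f) h.dual hx.dual he.dn hg.dn hcf hz)
    · exact h1
    · exact absurd h1 (open_c_aux h hx he.up hg.up hcf hz)
  have h2 : x f = f := by
    rcases lt_trichotomy (x f) f with h2 | h2 | h2
    · exact absurd h2 (open_c_aux2 (X := Xᵒᵈ) (x := x.dual) (y := y.dual)
        (e := e.dual) (g := g.dual) (f := f) he.up h1 (hg.fix f h1) hz)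
    · exact h2
    · exact absurd h2 (open_c_aux2 he.dn h1 (hg.fix f h1) hz)
  have h3 : e f = f := by
    have h5 : x (e f) = f := hg.fix f h1
    exact x.injective (by rw [h5, h2])
  have h4 : y f = f := by
    have h4 : y⁻¹ (g f) = f := he.fix f h3
    rw [h1] at h4
    have := aii y f
    rwa [h4] at this
  exact ⟨h2, h4, hcf, h3, h1⟩

/-! ### The cusp of `x` -/

theorem open_x_aux {f : X} (h : Rel5 x y c e g) (hc : Dmn c (g * x * g⁻¹ * y))
    (hy : ∀ v, y v < v → y v ≤ (e⁻¹ * c) v) (he : Far e (y⁻¹ * g))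
    (hg : ∀ v, v < g v → g v ≤ (x * e) v) (hxf : x f = f) (hcg : (c * g) f = f) :
    ¬ f < g f := by
  intro h1
  have hcw : c (g f) = f := hcg
  have hcd : c (g f) < g f := by rw [hcw]; exact h1
  have h2 := hc.dn_iff hcd
  have h3 := hc.dn _ h2
  rw [hcw] at h3
  change f ≤ g (x (g⁻¹ (y (g f)))) at h3
  change g (x (g⁻¹ (y (g f)))) < g f at h2
  set r := g⁻¹ (y (g f)) with hr
  have h4 : x r < x f := by rw [hxf]; exact g.lt_iff_lt.mp h2
  have h5 : r < f := x.lt_iff_lt.mp h4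
  have gr : g r = y (g f) := by rw [hr, aii]
  have h6 : y (g f) < g f := by rw [← gr]; exact g.lt_iff_lt.mpr h5
  have h7 : y (g f) ≤ e⁻¹ f := by
    have := hy _ h6
    change y (g f) ≤ e⁻¹ (c (g f)) at this
    rwa [hcw] at this
  set p := e⁻¹ f with hp
  have ep : e p = f := by rw [hp, aii]
  set u := g⁻¹ p with hu
  have gu : g u = p := by rw [hu, aii]
  have h8 : r ≤ u := by rw [← g.le_iff_le, gr, gu]; exact h7
  have hxe : ∀ v, g (x (e v)) = x (e (g v)) := fun v => DFunLike.congr_fun h.cg v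
  have h9 : g (x (e u)) = f := by rw [hxe, gu, ep, hxf]
  have h10 : x (e u) ≤ x u := by
    rw [← g.le_iff_le, h9]
    exact h3.trans (g.monotone (x.monotone h8))
  have h11 : e u ≤ u := x.le_iff_le.mp h10
  have h12 : (y⁻¹ * g) u ≤ u := by
    rcases lt_or_eq_of_le h11 with h12 | h12
    · exact (he.dn u h12).trans h11
    · exact (he.fix u h12).le
  have h13 : g f ≤ u := by
    refine le_trans ?_ h12
    show g f ≤ y⁻¹ (g u)
    rw [← y.le_iff_le, aii, gu]; exact h7
  have gp : p < g p := by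
    have a1 : x (e p) < x (e (g p)) := by rw [← hxe, ep, hxf]; exact h1
    exact e.lt_iff_lt.mp (x.lt_iff_lt.mp a1)
  have h14 : g p ≤ f := by
    have := hg p gp
    change g p ≤ x (e p) at this
    rwa [ep, hxf] at this
  have h15 : u < p := by rw [← g.lt_iff_lt, gu]; exact gp
  exact absurd (((h15.trans gp).trans_le h14).trans h1) (not_lt.mpr h13)

theorem open_x5 {f : X} (h : Rel5 x y c e g) (hc : Dmn c (g * x * g⁻¹ * y))
    (hy : Low y (e⁻¹ * c)) (he : Far e (y⁻¹ * g)) (hg : Far g (x * e)) (hxf : x f = f)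
    (hcg : (c * g) f = f) :
    x f = f ∧ y f = f ∧ c f = f ∧ e f = f ∧ g f = f := by
  have h1 : g f = f := by
    rcases lt_trichotomy (g f) f with h1 | h1 | h1
    · exact absurd h1 (open_x_aux (X := Xᵒᵈ) (x := x.dual) (y := y.dual) (c := c.dual)
        (e := e.dual) (g := g.dual) (f := f) h.dual hc.dual hy.up he.dual hg.dn hxf hcg)
    · exact h1
    · exact absurd h1 (open_x_aux h hc hy.dn he hg.up hxf hcg)
  have h2 : c f = f := by
    have h3 : c (g f) = f := hcg
    rwa [h1] at h3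
  have h3 : e f = f := by
    have h5 : x (e f) = f := hg.fix f h1
    exact x.injective (by rw [h5, hxf])
  have h4 : y f = f := by
    have h4 : y⁻¹ (g f) = f := he.fix f h3
    rw [h1] at h4
    have := aii y f
    rwa [h4] at this
  exact ⟨hxf, h4, h2, h3, h1⟩

end pt

end Pool.Agent.L7h76.FV
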