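import Pool.Agent.Results.MP_9ae2f3_gt.FourChainPieces
import Pool.Agent.L7h76.FV.Cone

set_option autoImplicit false

/-!
# The induction steps for the pieces of `FourChainPieces`, with arbitrary sets of boundary elements of the
glued manifolds
-/

universe u v

namespace Pool.Agent.L7h76.FV

open Pool.Agent.R649.BT (Block Piece Cap SCap TameE BlockOK cap_solid symm_fix)
open Pool.Agent.TH744.Tree (Link lon Node Cp CpS cp_solid mono_aut tws set0)
open Pool.Agent.L7h76.MT (Dir Both)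
open Pool.Agent.Results.MP_9ae2f3_gt.GluedKnotExteriors (PropertyD IsPiece NoOrders noOrders)
open Pool.Agent.Results.MP_9ae2f3_gt.MixedTrees (Kind pos Solid Glued twist dir_quadrant dir_chain
  chain_gen tws_eq)
open Pool.Agent.L7h76.FC (dir_of_scap)

theorem piece_step {G : Type} [Group G] (K : Block) (hK : IsPiece K)
    (j : PresentedGroup K.rel →* G)
    (N : K.Tori → Type) [∀ i, Group (N i)] (js : ∀ i, N i →* G) (Q : ∀ i, Set (N i))
    (S : Set K.Tori)
    (ih : ∀ i ∈ S, i ≠ 0 → Dir.{u} (N i) (Q i))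
    (glue : ∀ i ∈ S, i ≠ 0 → Both (js i '' Q i)
      (j (PresentedGroup.mk K.rel (K.x i))) (j (PresentedGroup.mk K.rel (K.e i)))⁻¹)
    (solid : ∀ i, i ∉ S → i ≠ 0 → ∃ p q : ℕ, 1 ≤ q ∧ ((∃ k, K = Block.seif k) → 1 ≤ p) ∧
      j (PresentedGroup.mk K.rel (K.x i)) ^ p * j (PresentedGroup.mk K.rel (K.e i)) ^ q = 1)
    (gen : j.range ⊔ ⨆ i ∈ {i | i ∈ S ∧ i ≠ 0}, (js i).range = ⊤) :
    Dir.{u} G (pos .quadrant (j (PresentedGroup.mk K.rel (K.x 0)))
      (j (PresentedGroup.mk K.rel (K.e 0)))) := by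
  have hb := hK.ok.{u}
  have hcm : ∀ i, Commute (j (PresentedGroup.mk K.rel (K.x i)))
      (j (PresentedGroup.mk K.rel (K.e i))) := fun i => (hb.comm i).map j
  have caps : ∀ (X : Type u) [CompleteLinearOrder X] (ρ : G →* (X ≃o X)) (i : K.Tori), i ≠ 0 →
      Cap (ρ (j (PresentedGroup.mk K.rel (K.x i)))) (ρ (j (PresentedGroup.mk K.rel (K.e i)))) ∧
      ((∃ k, K = Block.seif k) → SCap (ρ (j (PresentedGroup.mk K.rel (K.x i))))
        (ρ (j (PresentedGroup.mk K.rel (K.e i))))) ∧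
      (i ∈ S → ∀ p, ρ (j (PresentedGroup.mk K.rel (K.x i))) p = p →
        ∀ g, ρ (js i g) p = p) := by
    intro X _ ρ i h0
    by_cases hi : i ∈ S
    · have h3 := (ih i hi h0).scap (js i) ρ (glue i hi h0)
      exact ⟨h3.cap, fun _ => h3, fun _ p hp g =>
        (ih i hi h0).both_fix (js i) ρ (glue i hi h0) hp g⟩
    · obtain ⟨p, q, hq, hp, hr⟩ := solid i hi h0
      have hr' := congrArg ρ hr
      rw [map_mul, map_pow, map_pow, map_one] at hr'
      obtain ⟨c1, c2⟩ := cap_solid ((hcm i).map ρ) hq hr'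
      exact ⟨c1, fun hk => c2 (hp hk), fun hi' => absurd hi' hi⟩
  have hgen : ∀ (X : Type u) [CompleteLinearOrder X] (ρ : G →* (X ≃o X)) (p : X),
      (∀ g, ρ (j g) p = p) → ∀ g, ρ g p = p := by
    intro X _ ρ p hp g
    have hle : (⊤ : Subgroup G) ≤ (MulAction.stabilizer (X ≃o X) p).comap ρ := by
      rw [← gen, sup_le_iff]
      refine ⟨?_, iSup₂_le fun i hi => ?_⟩
      · rintro _ ⟨g, rfl⟩; exact hp g
      · rintro _ ⟨g, rfl⟩; exact (caps X ρ i hi.2).2.2 hi.1 p (hp _) g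
    exact hle (Subgroup.mem_top g)
  refine dir_quadrant (hcm 0) ⟨(Commute.refl _).inv_right.mul_right (hcm 0),
    fun X _ ρ p hx ha => ?_, fun X _ ρ hd g p => ?_⟩
  · refine hgen X ρ p (hb.opn X (ρ.comp j) (fun i hi => (caps X ρ i hi).1) p hx ?_)
    rw [map_mul, map_inv] at ha
    have h2 := congrArg (ρ (j (PresentedGroup.mk K.rel (K.x 0)))) ha
    have h3 : ρ (j (PresentedGroup.mk K.rel (K.x 0)))
        ((ρ (j (PresentedGroup.mk K.rel (K.x 0))))⁻¹
          (ρ (j (PresentedGroup.mk K.rel (K.e 0))) p)) =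
        ρ (j (PresentedGroup.mk K.rel (K.e 0))) p :=
      (ρ (j (PresentedGroup.mk K.rel (K.x 0)))).apply_symm_apply _
    rw [RelIso.mul_apply, h3, hx] at h2
    exact h2
  · refine hgen X ρ p (fun g => ?_) g
    have h0 := Cap.of_dom hd
    rw [← map_mul, mul_inv_cancel_left] at h0
    exact hb.closed X (ρ.comp j) h0 (fun i hi => (caps X ρ i hi).1)
      (fun h i hi => (caps X ρ i hi).2.1 h) g p

/-- The caps of the components of a chain link. -/
theorem chain_cap {G : Type*} [Group G] {n : ℕ} {o m : ℕ → G} {c s : ℕ → Bool}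
    (link : Link n o m c) (N : ℕ → Type) [∀ i, Group (N i)] (js : ∀ i, N i →* G)
    (Q : ∀ i, Set (N i)) (S : Set ℕ) (i : ℕ) (ih : i ∈ S → Dir.{u} (N i) (Q i))
    (glue : i ∈ S → Both (js i '' Q i) (o (i + 1))⁻¹
      (o (i + 1) ^ 2 * if s (i + 1) then lon o m c i else (lon o m c i)⁻¹))
    (solid : i ∉ S → ∃ p q : ℤ, 1 ≤ q ∧ 2 * q ≤ |p| ∧ s (i + 1) = decide (0 < p) ∧
      o (i + 1) ^ p * lon o m c i ^ q = 1)
    (X : Type u) [CompleteLinearOrder X] (ρ : G →* (X ≃o X)) :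
    Cp X (s (i + 1)) (ρ (o (i + 1))) (ρ (lon o m c i)) ∧
    (i ∈ S → CpS X (s (i + 1)) (ρ (o (i + 1))) (ρ (lon o m c i)) ∧
      ∀ p, ρ (o (i + 1)) p = p → ∀ g, ρ (js i g) p = p) := by
  by_cases hi : i ∈ S
  · have h1 := (ih hi).cps (js i) ρ (glue hi)
    refine ⟨h1.2, fun _ => ⟨h1.1, fun p hp g => ?_⟩⟩
    rw [Pool.Agent.L7h76.MT.eq_of_inv] at hp
    exact (ih hi).both_fix (js i) ρ (glue hi) hp g
  · obtain ⟨p, q, hq, hp, hs, hr⟩ := solid hi
    refine ⟨?_, fun h => absurd h hi⟩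
    rw [hs]
    refine cp_solid mono_aut ((link.comm i).map ρ) hq hp ?_
    have := congrArg ρ hr
    rwa [map_mul, map_zpow, map_zpow, map_one] at this

theorem chain_step {G : Type} [Group G] (n : ℕ) (hn : 1 ≤ n) (o m : ℕ → G) (c s : ℕ → Bool)
    (link : Link n o m c) (per : ∀ i, s (i + n) = s i) (s0 : s 0 = true)
    (N : ℕ → Type) [∀ i, Group (N i)] (js : ∀ i, N i →* G) (Q : ∀ i, Set (N i))
    (S : Set ℕ) (ih : ∀ i ∈ S, i + 1 < n → Dir.{u} (N i) (Q i))
    (glue : ∀ i ∈ S, i + 1 < n → Glued (js i '' Q i) (s (i + 1)) (o (i + 1)) (lon o m c i))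
    (solid : ∀ i ∉ S, i + 1 < n → Solid (s (i + 1)) (o (i + 1)) (lon o m c i))
    (tw : twist n c s = 0 ∨ twist n c s = -1)
    (gen : Subgroup.closure (Set.range o ∪ Set.range m) ⊔
      ⨆ i ∈ {i | i ∈ S ∧ i + 1 < n}, (js i).range = ⊤) :
    Dir.{u} G (pos .chain (o 0) (lon o m c (n - 1))) := by
  have node : Node.{u} G n o m c s := by
    refine ⟨link, hn, per, fun X _ ρ i hi => ?_, fun X _ ρ p ho hm => ?_⟩
    · exact (chain_cap link N js Q S i (fun h => ih i h hi) (fun h => glue i h hi)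
        (fun h => solid i h hi) X ρ).1
    · refine chain_gen (c := c) (n := n) N js _ gen ρ ho hm fun i hi => ?_
      exact ((chain_cap link N js Q S i (fun h => ih i h hi.2) (fun h => glue i h hi.2)
        (fun h => solid i h hi.2) X ρ).2 hi.1).2 p (ho _)
  refine dir_chain (node.tame ?_)
  have e1 : set0 n s true = s := by
    funext i
    unfold set0
    split_ifs with h
    · obtain ⟨t, rfl⟩ := Nat.dvd_of_mod_eq_zero h
      have h2 : ∀ t, s (n * t) = true := by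
        intro t
        induction t with
        | zero => simpa using s0
        | succ t ih =>
          rw [Nat.mul_succ, per]; exact ih
      exact (h2 t).symm
    · rfl
  rw [e1, tws_eq]
  exact tw

section four

open Pool.Agent.Results.MP_9ae2f3_gt.FourChainPieces

/-- The conditions at the tori of the 4-chain link. -/
theorem four_cap {G : Type v} [Group G] {t : Box} {o n : Fin 4 → G} (link : Chain4 o n)
    (N : Fin 4 → Type) [∀ i, Group (N i)] (js : ∀ i, N i →* G) (Q : ∀ i, Set (N i))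
    (S : Set (Fin 4)) (i : Fin 4) (ih : i ∈ S → Dir.{u} (N i) (Q i))
    (glue : i ∈ S → Both (js i '' Q i) (fst t o n i) (snd t o n i)⁻¹)
    (solid : i ∉ S → Filled t o n i)
    (X : Type u) [CompleteLinearOrder X] (ρ : G →* (X ≃o X)) :
    Capd t (fun i => ρ (o i)) (fun i => ρ (n i)) i ∧
    (i ∈ S → ∀ p, ρ (fst t o n i) p = p → ∀ g, ρ (js i g) p = p) := by
  unfold Capd
  rw [fst_map, snd_map]
  by_cases hi : i ∈ S
  · have h3 := (ih hi).scap (js i) ρ (glue hi)
    exact ⟨⟨h3.cap, fun _ _ => h3⟩, fun _ p hp g => (ih hi).both_fix (js i) ρ (glue hi) hp g⟩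
  · obtain ⟨p, q, hq, hp, hr⟩ := filled_word link.core (solid hi)
    have hr' := congrArg ρ hr
    rw [map_mul, map_pow, map_pow, map_one] at hr'
    obtain ⟨c1, c2⟩ := cap_solid ((link.core.comm' t i).map ρ) hq hr'
    exact ⟨⟨c1, fun ht hk => c2 (hp ht hk)⟩, fun hi' => absurd hi' hi⟩

theorem four_step {G : Type} [Group G] (t : Box) (o n : Fin 4 → G) (link : Chain4 o n)
    (r : Fin 4) (N : Fin 4 → Type) [∀ i, Group (N i)] (js : ∀ i, N i →* G) (Q : ∀ i, Set (N i))
    (S : Set (Fin 4)) (ih : ∀ i ∈ S, i ≠ r → Dir.{u} (N i) (Q i))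
    (glue : ∀ i ∈ S, i ≠ r → Both (js i '' Q i) (fst t o n i) (snd t o n i)⁻¹)
    (solid : ∀ i ∉ S, i ≠ r → Filled t o n i)
    (gen : Subgroup.closure (Set.range o ∪ Set.range n) ⊔
      ⨆ i ∈ {i | i ∈ S ∧ i ≠ r}, (js i).range = ⊤) :
    Dir.{u} G (pos .quadrant (fst t o n r) (snd t o n r)) := by
  have cap := fun i (hi : i ≠ r) => four_cap link N js Q S i (fun h => ih i h hi)
    (fun h => glue i h hi) (fun h => solid i h hi)
  have all : ∀ (X : Type u) [CompleteLinearOrder X] (ρ : G →* (X ≃o X)) (p : X),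
      ((∀ i, ρ (o i) p = p) ∧ ∀ i, ρ (n i) p = p) → ∀ g, ρ g p = p := by
    intro X _ ρ p hp
    exact four_gen N js _ gen ρ hp fun i hi => (cap i hi.2 X ρ).2 hi.1 p (fix_fst ρ hp i)
  refine dir_of_scap (link.core.comm' t r) (fun X _ ρ p h1 h2 => ?_) (fun X _ ρ hs g p => ?_)
  · refine all X ρ p (act_open (link.map ρ) t r (fun i hi => (cap i hi X ρ).1) ?_ ?_)
    · rw [fst_map]; exact h1
    · rw [snd_map]; exact h2
  · refine all X ρ p (act_closed (link.map ρ) t (fun i => ?_) p) g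
    by_cases hi : i = r
    · subst hi
      unfold Capd
      rw [fst_map, snd_map]
      exact ⟨hs.cap, fun _ _ => hs⟩
    · exact (cap i hi X ρ).1

end four

end Pool.Agent.L7h76.FV
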